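import Pool.Agent.TH630.Fill.Defs

/-! # Stratified Lie groups in exponential coordinates -/

set_option autoImplicit false

namespace Pool.Agent.E8helper29.FILL

open Pool.Agent.TH630

/-- A stratified Lie group `G` of dimension `n`, in exponential coordinates with respect to a basis
of the Lie algebra adapted to the stratification `V_1 ⊕ … ⊕ V_s` and ordered by the layers: the
group law on real `n`-space is of triangular polynomial form (the structure `NilLaw n`), and
* `wt i` is the layer of the `i`-th basis vector,
* the dilations (multiplication by `s ^ j` on the layer `V_j`) are automorphisms of `G`,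
* the lines through `0` are one-parameter subgroups (the coordinates are exponential),
* the elements of the first layer, `exp V_1`, generate `G`. -/
structure StratLaw (n : ℕ) extends NilLaw n where
  /-- the layer of each coordinate -/
  wt : Fin n → ℕ
  wt_pos : ∀ i, 1 ≤ wt i
  dil_mul : ∀ s : ℝ, 0 < s → ∀ x y : Fin n → ℝ,
    triMul P (fun i => s ^ wt i * x i) (fun i => s ^ wt i * y i) =
      fun i => s ^ wt i * triMul P x y i
  one_param : ∀ (x : Fin n → ℝ) (a b : ℝ), triMul P (a • x) (b • x) = (a + b) • x
  gen : ∀ x : Fin n → ℝ, ∃ l : List (Fin n → ℝ),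
    (∀ v ∈ l, ∀ i, wt i ≠ 1 → v i = 0) ∧ l.foldr (triMul P) 0 = x

/-- The homogeneous dimension `Q = ∑_j j dim V_j`. -/
def StratLaw.homDim {n : ℕ} (G : StratLaw n) : ℕ := ∑ i, G.wt i

/-- The dilation with factor `s`. -/
def StratLaw.dil {n : ℕ} (G : StratLaw n) (s : ℝ) (x : Fin n → ℝ) : Fin n → ℝ :=
  fun i => s ^ G.wt i * x i

end Pool.Agent.E8helper29.FILL
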