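import Pool.Agent.E8helper29.FILL.Grow
import Pool.Agent.E8helper29.FILL.Strat

/-! # Dilations of stratified groups -/

set_option autoImplicit false

open MeasureTheory MvPolynomial
open scoped ENNReal NNReal Topology

namespace Pool.Agent.E8helper29.FILL

open Pool.Agent.TH630 Pool.Agent.TH630.NilLaw

variable {n : ℕ} (G : StratLaw n)

namespace StratLaw

theorem dil_hom {s : ℝ} (hs : 0 < s) (x y : Fin n → ℝ) :
    G.mul (G.dil s x) (G.dil s y) = G.dil s (G.mul x y) := G.dil_mul s hs x y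

theorem dil_zero (s : ℝ) : G.dil s 0 = 0 := by
  funext i
  simp [dil]

theorem dil_dil (s t : ℝ) (x : Fin n → ℝ) : G.dil s (G.dil t x) = G.dil (s * t) x := by
  funext i
  simp only [dil, mul_pow]
  ring

theorem dil_one (x : Fin n → ℝ) : G.dil 1 x = x := by
  funext i
  simp [dil]

theorem dil_inv {s : ℝ} (hs : 0 < s) (x : Fin n → ℝ) :
    G.inv (G.dil s x) = G.dil s (G.inv x) := by
  have h : G.mul (G.dil s (G.inv x)) (G.dil s x) = 0 := by
    rw [G.dil_hom hs, invMul, dil_zero]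
  have h2 := congrArg (fun z => G.mul z (G.inv (G.dil s x))) h
  simp only [NilLaw.mulA, mulInv, mulZero, zeroMul] at h2
  exact h2.symm

theorem dil_ldiv {s : ℝ} (hs : 0 < s) (x y : Fin n → ℝ) :
    G.ldiv (G.dil s x) (G.dil s y) = G.dil s (G.ldiv x y) := by
  rw [NilLaw.ldiv, G.dil_inv hs, G.dil_hom hs, NilLaw.ldiv]

theorem barIter_dil {ι : Type*} [Fintype ι] {s : ℝ} (hs : 0 < s) (t : ι → ℝ)
    (g : ι → Fin n → ℝ) (m : ℕ) :
    G.barIter t (fun j => G.dil s (g j)) m = G.dil s (G.barIter t g m) := by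
  induction m with
  | zero => exact (G.dil_zero s).symm
  | succ m ih =>
    change G.barStep t _ (G.barIter t _ m) = G.dil s (G.barStep t g (G.barIter t g m))
    rw [ih]
    funext i
    have e : G.dil s (G.barStep t g (G.barIter t g m)) i =
        s ^ G.wt i * G.barStep t g (G.barIter t g m) i := rfl
    rw [e]
    simp only [NilLaw.barStep, G.dil_ldiv hs]
    rw [Finset.mul_sum]
    refine Finset.sum_congr rfl fun j _ => ?_
    simp only [dil]
    ring

theorem bar_dil {ι : Type*} [Fintype ι] {s : ℝ} (hs : 0 < s) (t : ι → ℝ)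
    (g : ι → Fin n → ℝ) : G.bar t (fun j => G.dil s (g j)) = G.dil s (G.bar t g) :=
  G.barIter_dil hs t g n

/-- The dilation as a continuous linear map. -/
noncomputable def dilL (s : ℝ) : (Fin n → ℝ) →L[ℝ] (Fin n → ℝ) :=
  ContinuousLinearMap.pi fun i => (s ^ G.wt i) • ContinuousLinearMap.proj i

theorem dilL_apply (s : ℝ) (x : Fin n → ℝ) : G.dilL s x = G.dil s x := by
  funext i
  simp [dilL, dil]

theorem det_dilL (s : ℝ) : (G.dilL s).det = s ^ G.homDim := by
  rw [ContinuousLinearMap.det, ← LinearMap.det_toMatrix']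
  have h : LinearMap.toMatrix' (G.dilL s : (Fin n → ℝ) →ₗ[ℝ] (Fin n → ℝ)) =
      Matrix.diagonal fun i => s ^ G.wt i := by
    ext i j
    rw [LinearMap.toMatrix'_apply, Matrix.diagonal_apply]
    by_cases h : i = j
    · subst h
      simp [dilL]
    · simp [dilL, h]
  rw [h, Matrix.det_diagonal, Finset.prod_pow_eq_pow_sum, homDim]

theorem sgnVol_bar_dil {s : ℝ} (hs : 0 < s) (g : Fin (n + 1) → Fin n → ℝ) :
    sgnVol (G.barSimplex (fun j => G.dil s (g j))) = s ^ G.homDim * sgnVol (G.barSimplex g) := by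
  rw [Pool.Agent.TH620.J85.sgnVol_bar, Pool.Agent.TH620.J85.sgnVol_bar, ← integral_const_mul]
  congr 1
  funext t
  have hd : DifferentiableAt ℝ (fun r : Fin n → ℝ => G.bar (bary r) g) t :=
    (((G.contDiff_bar_left 1 g).comp
      (Pool.Agent.TH620.J84.contDiff_bary n 1)).differentiable (by norm_num)) t
  have h1 : (fun r : Fin n → ℝ => G.bar (bary r) (fun j => G.dil s (g j))) =
      fun r => G.dilL s (G.bar (bary r) g) := by
    funext r
    rw [G.bar_dil hs, dilL_apply]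
  have h2 : fderiv ℝ (fun r : Fin n → ℝ => G.dilL s (G.bar (bary r) g)) t =
      (G.dilL s).comp (fderiv ℝ (fun r : Fin n → ℝ => G.bar (bary r) g) t) :=
    ((G.dilL s).hasFDerivAt.comp t hd.hasFDerivAt).fderiv
  rw [h1, h2, ContinuousLinearMap.det, ContinuousLinearMap.toLinearMap_comp, LinearMap.det_comp]
  have h3 := G.det_dilL s
  rw [ContinuousLinearMap.det] at h3
  rw [h3]

/-! ### The norm of dilated elements -/

/-- The elements of the first layer. -/
def L1 (v : Fin n → ℝ) : Prop := ∀ i, G.wt i ≠ 1 → v i = 0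

theorem dil_L1 {v : Fin n → ℝ} (hv : G.L1 v) (s : ℝ) : G.dil s v = s • v := by
  funext i
  by_cases h : G.wt i = 1
  · simp [dil, h]
  · simp [dil, hv i h]

theorem nrm_nsmul_le (u : Fin n → ℝ) (k : ℕ) : G.nrm ((k : ℝ) • u) ≤ k * G.nrm u := by
  induction k with
  | zero => simp [nrm_zero]
  | succ k ih =>
    have h : ((k + 1 : ℕ) : ℝ) • u = G.mul ((k : ℝ) • u) ((1 : ℝ) • u) := by
      have := G.one_param u k 1
      push_cast
      exact this.symm
    rw [h, one_smul]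
    refine (nrm_mul_le G.toNilLaw _ _).trans ?_
    push_cast
    linarith

theorem nrm_le_norm : ∃ C : ℝ, 0 < C ∧ ∀ v : Fin n → ℝ, G.nrm v ≤ C * ‖v‖ := by
  obtain ⟨δ, hδ, C, hC, h⟩ := nrm_le_small G.toNilLaw
  refine ⟨C, hC, fun v => ?_⟩
  obtain ⟨m, hm⟩ := exists_nat_gt (‖v‖ / δ)
  have hm0 : (0 : ℝ) < m := lt_of_le_of_lt (by positivity) hm
  have h1 : ‖(1 / (m : ℝ)) • v‖ ≤ δ := by
    rw [norm_smul, Real.norm_of_nonneg (by positivity), one_div, inv_mul_le_iff₀ hm0]
    rw [div_lt_iff₀ hδ] at hm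
    linarith
  have h2 : v = (m : ℝ) • ((1 / (m : ℝ)) • v) := by
    rw [smul_smul, mul_one_div_cancel hm0.ne', one_smul]
  have h3 := G.nrm_nsmul_le ((1 / (m : ℝ)) • v) m
  rw [← h2] at h3
  refine h3.trans ?_
  have h4 := h _ h1
  rw [norm_smul, Real.norm_of_nonneg (by positivity)] at h4
  calc (m : ℝ) * G.nrm ((1 / (m : ℝ)) • v) ≤ m * (C * (1 / (m : ℝ) * ‖v‖)) := by gcongr
    _ = C * ‖v‖ := by field_simp

/-- Products of `N` elements of the first layer of norm at most `R`. -/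
def KK (R : ℕ) : ℕ → Set (Fin n → ℝ)
  | 0 => {0}
  | N + 1 => (fun p : (Fin n → ℝ) × (Fin n → ℝ) => G.mul p.1 p.2) ''
      ({v | G.L1 v ∧ ‖v‖ ≤ R} ×ˢ KK R N)

theorem isCompact_S (R : ℕ) : IsCompact {v : Fin n → ℝ | G.L1 v ∧ ‖v‖ ≤ R} := by
  have h1 : IsClosed {v : Fin n → ℝ | G.L1 v} := by
    have : {v : Fin n → ℝ | G.L1 v} = ⋂ i, ⋂ (_ : G.wt i ≠ 1), {v : Fin n → ℝ | v i = 0} := by
      ext v
      simp [L1]
    rw [this]
    exact isClosed_iInter fun i => isClosed_iInter fun _ =>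
      isClosed_eq (continuous_apply i) continuous_const
  have h2 : {v : Fin n → ℝ | G.L1 v ∧ ‖v‖ ≤ R} = Metric.closedBall 0 R ∩ {v | G.L1 v} := by
    ext v
    simp [and_comm]
  rw [h2]
  exact (isCompact_closedBall 0 (R : ℝ)).inter_right h1

theorem isCompact_KK (R N : ℕ) : IsCompact (G.KK R N) := by
  induction N with
  | zero => exact isCompact_singleton
  | succ N ih =>
    exact ((G.isCompact_S R).prod ih).image (G.contDiff_mul₂ 0).continuous

theorem mem_KK_of_list (R : ℕ) (l : List (Fin n → ℝ)) (hl : ∀ v ∈ l, G.L1 v ∧ ‖v‖ ≤ R) :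
    l.foldr G.mul 0 ∈ G.KK R l.length := by
  induction l with
  | nil => rfl
  | cons v l ih =>
    rw [List.foldr_cons, List.length_cons]
    refine ⟨(v, l.foldr G.mul 0), ⟨hl v (by simp), ih fun w hw => hl w (by simp [hw])⟩, rfl⟩

theorem iUnion_KK : ⋃ p : ℕ × ℕ, G.KK p.1 p.2 = Set.univ := by
  rw [Set.eq_univ_iff_forall]
  intro x
  obtain ⟨l, h1, h2⟩ := G.gen x
  have h3 : ∃ R : ℕ, ∀ v ∈ l, ‖v‖ ≤ R := by
    obtain ⟨R, hR⟩ := exists_nat_ge ((l.map fun v => ‖v‖).sum)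
    refine ⟨R, fun v hv => le_trans ?_ hR⟩
    exact List.single_le_sum (by
      intro x hx
      obtain ⟨w, _, rfl⟩ := List.mem_map.1 hx
      exact norm_nonneg w) _ (List.mem_map.2 ⟨v, hv, rfl⟩)
  obtain ⟨R, hR⟩ := h3
  rw [Set.mem_iUnion]
  refine ⟨(R, l.length), ?_⟩
  have := G.mem_KK_of_list R l fun v hv => ⟨h1 v hv, hR v hv⟩
  have h4 : l.foldr G.mul 0 = x := h2
  rwa [h4] at this

theorem nrm_dil_KK {C : ℝ} (hC0 : 0 < C) (hC : ∀ v : Fin n → ℝ, G.nrm v ≤ C * ‖v‖) (R N : ℕ)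
    {s : ℝ} (hs : 0 < s) : ∀ y ∈ G.KK R N, G.nrm (G.dil s y) ≤ N * (C * R) * s := by
  induction N with
  | zero =>
    intro y hy
    have : y = 0 := hy
    rw [this, dil_zero, nrm_zero]
    simp
  | succ N ih =>
    rintro _ ⟨⟨v, y⟩, ⟨hv, hy⟩, rfl⟩
    simp only
    rw [← G.dil_hom hs]
    refine (nrm_mul_le G.toNilLaw _ _).trans ?_
    have h1 := ih y hy
    have h2 : G.nrm (G.dil s v) ≤ C * R * s := by
      rw [G.dil_L1 hv.1]
      refine (hC _).trans ?_
      rw [norm_smul, Real.norm_of_nonneg hs.le]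
      have := hv.2
      calc C * (s * ‖v‖) ≤ C * (s * R) := by gcongr
        _ = C * R * s := by ring
    push_cast
    linarith

/-- The main estimate: the word norm of dilated elements grows linearly. -/
theorem nrm_dil (M : ℝ) : ∃ C : ℝ, 0 < C ∧ ∀ s : ℝ, 0 < s → ∀ x : Fin n → ℝ, ‖x‖ ≤ M →
    G.nrm (G.dil s x) ≤ C * s := by
  obtain ⟨C, hC0, hC⟩ := G.nrm_le_norm
  obtain ⟨⟨R, N⟩, y, hy⟩ := nonempty_interior_of_iUnion_of_closed
    (fun p : ℕ × ℕ => (G.isCompact_KK p.1 p.2).isClosed) G.iUnion_KK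
  simp only at hy
  have hyK : y ∈ G.KK R N := interior_subset hy
  have hcont : Continuous (G.mul y) := (G.contDiff_mulLeft y 0).continuous
  have h1 : ∀ᶠ x in 𝓝 (0 : Fin n → ℝ), G.mul y x ∈ interior (G.KK R N) := by
    apply hcont.continuousAt.eventually_mem
    rw [mulZero]
    exact isOpen_interior.mem_nhds hy
  obtain ⟨r, hr, hr2⟩ := Metric.eventually_nhds_iff.1 h1
  have hsmall : ∀ s : ℝ, 0 < s → ∀ x : Fin n → ℝ, ‖x‖ < r →
      G.nrm (G.dil s x) ≤ 2 * (N * (C * R)) * s := by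
    intro s hs x hx
    have h2 : G.mul y x ∈ G.KK R N := interior_subset (hr2 (by simpa using hx))
    have h3 : x = G.mul (G.inv y) (G.mul y x) := by simp
    have h4 : G.dil s x = G.mul (G.inv (G.dil s y)) (G.dil s (G.mul y x)) := by
      rw [G.dil_inv hs, G.dil_hom hs, ← h3]
    rw [h4]
    refine (nrm_mul_le G.toNilLaw _ _).trans ?_
    rw [nrm_inv]
    have h5 := G.nrm_dil_KK hC0 hC R N hs y hyK
    have h6 := G.nrm_dil_KK hC0 hC R N hs _ h2
    linarith
  set lam : ℝ := max 1 ((|M| + 1) / r) with hlam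
  have hlam1 : 1 ≤ lam := le_max_left _ _
  have hlam0 : 0 < lam := by linarith
  refine ⟨2 * (N * (C * R)) * lam + 1, by positivity, fun s hs x hx => ?_⟩
  have h2 : ‖G.dil lam⁻¹ x‖ < r := by
    have h3 : ‖G.dil lam⁻¹ x‖ ≤ lam⁻¹ * ‖x‖ := by
      rw [pi_norm_le_iff_of_nonneg (by positivity)]
      intro i
      rw [dil, norm_mul, Real.norm_of_nonneg (by positivity)]
      have h4 : lam⁻¹ ^ G.wt i ≤ lam⁻¹ := by
        calc lam⁻¹ ^ G.wt i ≤ lam⁻¹ ^ 1 :=
              pow_le_pow_of_le_one (by positivity) (inv_le_one_of_one_le₀ hlam1) (G.wt_pos i)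
          _ = lam⁻¹ := pow_one _
      have h5 := norm_le_pi_norm x i
      gcongr
    refine lt_of_le_of_lt h3 ?_
    rw [inv_mul_lt_iff₀ hlam0]
    have h4 : (|M| + 1) / r ≤ lam := le_max_right _ _
    rw [div_le_iff₀ hr] at h4
    have h5 := le_abs_self M
    linarith
  have h3 : G.dil s x = G.dil (s * lam) (G.dil lam⁻¹ x) := by
    rw [dil_dil, _root_.mul_assoc, mul_inv_cancel₀ hlam0.ne', mul_one]
  rw [h3]
  refine (hsmall (s * lam) (by positivity) _ h2).trans ?_
  nlinarith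

/-- The homogeneous dimension of a non-abelian stratified group is larger than the dimension. -/
theorem lt_homDim (hG : ∃ x y, G.mul x y ≠ G.mul y x) : n < G.homDim := by
  by_contra hcon
  push Not at hcon
  have h1 : ∀ i, G.wt i = 1 := by
    by_contra h
    push Not at h
    obtain ⟨i, hi⟩ := h
    have h2 : ∑ _i : Fin n, 1 < ∑ i, G.wt i :=
      Finset.sum_lt_sum (fun i _ => G.wt_pos i) ⟨i, Finset.mem_univ i, by
        have := G.wt_pos i
        omega⟩
    rw [Finset.sum_const, Finset.card_univ, Fintype.card_fin, smul_eq_mul, mul_one] at h2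
    rw [homDim] at hcon
    omega
  have h2 : ∀ (s : ℝ) (x : Fin n → ℝ), G.dil s x = s • x := by
    intro s x
    funext i
    simp [dil, h1 i]
  have hD : HasFDerivAt (fun p : (Fin n → ℝ) × (Fin n → ℝ) => G.mul p.1 p.2)
      (fderiv ℝ (fun p : (Fin n → ℝ) × (Fin n → ℝ) => G.mul p.1 p.2) 0) 0 :=
    (((G.contDiff_mul₂ 1).differentiable (by norm_num)) 0).hasFDerivAt
  set D := fderiv ℝ (fun p : (Fin n → ℝ) × (Fin n → ℝ) => G.mul p.1 p.2) 0 with hDdef
  have h3 : ∀ x y : Fin n → ℝ, G.mul x y = D (x, y) := by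
    intro x y
    have hl : HasDerivAt (fun s : ℝ => s • ((x, y) : (Fin n → ℝ) × (Fin n → ℝ))) (x, y) 0 := by
      simpa using (hasDerivAt_id (0 : ℝ)).smul_const ((x, y) : (Fin n → ℝ) × (Fin n → ℝ))
    have hc : HasDerivAt (fun s : ℝ => G.mul (s • x) (s • y)) (D (x, y)) 0 := by
      have := HasFDerivAt.comp_hasDerivAt (x := (0 : ℝ))
        (f := fun s : ℝ => s • ((x, y) : (Fin n → ℝ) × (Fin n → ℝ)))
        (l := fun p : (Fin n → ℝ) × (Fin n → ℝ) => G.mul p.1 p.2) (l' := D) (by simpa using hD) hl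
      exact this
    have hc2 : HasDerivAt (fun s : ℝ => s • G.mul x y) (G.mul x y) 0 := by
      simpa using (hasDerivAt_id (0 : ℝ)).smul_const (G.mul x y)
    have hu : UniqueDiffWithinAt ℝ (Set.Ici (0 : ℝ)) 0 := uniqueDiffWithinAt_Ici 0
    have h5 : HasDerivWithinAt (fun s : ℝ => G.mul (s • x) (s • y)) (G.mul x y)
        (Set.Ici (0 : ℝ)) 0 := by
      refine hc2.hasDerivWithinAt.congr (fun s hs => ?_) (by simp)
      rcases eq_or_lt_of_le (show (0 : ℝ) ≤ s from hs) with h0 | h0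
      · rw [← h0]
        simp
      · have := G.dil_hom h0 x y
        rw [h2, h2, h2] at this
        exact this
    exact hu.eq_deriv _ h5 hc.hasDerivWithinAt
  obtain ⟨x, y, hxy⟩ := hG
  apply hxy
  have h4 : ∀ x y : Fin n → ℝ, G.mul x y = x + y := by
    intro x y
    have e1 : ((x, y) : (Fin n → ℝ) × (Fin n → ℝ)) = (x, 0) + (0, y) := by simp
    rw [h3, e1, map_add, ← h3, ← h3, mulZero, zeroMul]
  rw [h4, h4, add_comm]

end StratLaw

end Pool.Agent.E8helper29.FILL
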