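import Pool.Agent.E8helper29.FILL.Dil

/-! # Example: the Heisenberg group is a stratified group of homogeneous dimension 4 -/

set_option autoImplicit false

open MvPolynomial

namespace Pool.Agent.E8helper29.FILL

open Pool.Agent.TH630 Pool.Agent.TH630.NilLaw

/-- The corrections to addition in the Heisenberg group. -/
noncomputable def heisP : Fin 3 → MvPolynomial (Fin 3 ⊕ Fin 3) ℝ := fun i =>
  if i = 2 then C (1 / 2) * (X (Sum.inl 0) * X (Sum.inr 1) - X (Sum.inl 1) * X (Sum.inr 0)) else 0

theorem heis_mul (x y : Fin 3 → ℝ) :
    triMul heisP x y = ![x 0 + y 0, x 1 + y 1, x 2 + y 2 + (x 0 * y 1 - x 1 * y 0) / 2] := by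
  funext i
  fin_cases i
  · simp [triMul, heisP]
  · simp [triMul, heisP]
  · simp [triMul, heisP]
    ring

/-- The Heisenberg group in exponential coordinates. -/
noncomputable def heis : StratLaw 3 where
  P := heisP
  tri := by
    intro i x x' y y' hx hy
    by_cases h : i = 2
    · subst h
      have h0 : (0 : Fin 3) < 2 := by decide
      have h1 : (1 : Fin 3) < 2 := by decide
      simp [heisP, hx 0 h0, hx 1 h1, hy 0 h0, hy 1 h1]
    · simp [heisP, h]
  inv := fun x => -x
  zero_mul := by
    intro x
    rw [heis_mul]
    funext i
    fin_cases i <;> simp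
  mul_zero := by
    intro x
    rw [heis_mul]
    funext i
    fin_cases i <;> simp
  inv_mul := by
    intro x
    rw [heis_mul]
    funext i
    fin_cases i
    · simp
    · simp
    · simp
      ring
  mul_assoc := by
    intro x y z
    simp only [heis_mul]
    funext i
    fin_cases i
    · simp
      ring
    · simp
      ring
    · simp
      ring
  wt := ![1, 1, 2]
  wt_pos := by
    intro i
    fin_cases i <;> simp
  dil_mul := by
    intro s hs x y
    simp only [heis_mul]
    funext i
    fin_cases i
    · simp
      ring
    · simp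
      ring
    · simp
      ring
  one_param := by
    intro x a b
    rw [heis_mul]
    funext i
    fin_cases i
    · simp
      ring
    · simp
      ring
    · simp
      ring
  gen := by
    intro x
    refine ⟨[![x 0, 0, 0], ![0, x 1, 0], ![1, 0, 0], ![0, x 2 - x 0 * x 1 / 2, 0], ![-1, 0, 0],
      ![0, -(x 2 - x 0 * x 1 / 2), 0]], ?_, ?_⟩
    · intro v hv i hi
      have h2 : i = 2 := by
        fin_cases i
        · simp at hi
        · simp at hi
        · rfl
      subst h2
      simp only [List.mem_cons, List.mem_nil_iff, or_false] at hv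
      rcases hv with rfl | rfl | rfl | rfl | rfl | rfl <;> simp
    · simp only [List.foldr_cons, List.foldr_nil, heis_mul]
      funext i
      fin_cases i
      · simp
      · simp
      · simp

theorem heis_homDim : heis.homDim = 4 := by
  simp [StratLaw.homDim, heis, Fin.sum_univ_three]

theorem heis_nonabelian : ∃ x y, heis.mul x y ≠ heis.mul y x := by
  refine ⟨![1, 0, 0], ![0, 1, 0], fun h => ?_⟩
  have h1 : triMul heisP ![1, 0, 0] ![0, 1, 0] = triMul heisP ![0, 1, 0] ![1, 0, 0] := h
  rw [heis_mul, heis_mul] at h1
  have h2 := congrFun h1 2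
  simp at h2
  norm_num at h2

end Pool.Agent.E8helper29.FILL
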