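import Pool.Agent.E8helper29.FILL.Dil

/-! # The product of the filling exponents of a stratified group -/

set_option autoImplicit false

open MeasureTheory MvPolynomial
open scoped ENNReal NNReal Topology

namespace Pool.Agent.E8helper29.FILL

open Pool.Agent.TH630 Pool.Agent.TH630.NilLaw

/-- **Theorem.** The product of the exponents of the filling functions of a non-abelian stratified
group is at least the homogeneous dimension. -/
theorem homDim_le_prod {n : ℕ} (G : StratLaw n) (hnc : ∃ x y, G.mul x y ≠ G.mul y x)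
    (B : Matrix (Fin n) (Fin n) ℝ) (hB : B.PosDef) (e : ℕ → ℝ) (hGr : Gr G.toNilLaw B e) :
    (G.homDim : ℝ) ≤ ∏ k ∈ Finset.Ico 1 n, e k := by
  by_contra hcon
  push Not at hcon
  obtain ⟨m, rfl⟩ : ∃ m, n = m + 1 := by
    rcases n with _ | m
    · obtain ⟨x, y, hxy⟩ := hnc
      exact absurd (Subsingleton.elim _ _) hxy
    · exact ⟨m, rfl⟩
  set E : ℝ := ∏ k ∈ Finset.Ico 1 (m + 1), e k with hE
  obtain ⟨D⟩ := exists_Distorted G.toNilLaw hnc
  obtain ⟨Q, hQ⟩ := exists_barPoly G.toNilLaw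
  have hQ' : IsVolPoly G.toNilLaw Q := hQ
  obtain ⟨C2, hC2⟩ := G.exists_frame_bound
  have hC2' : FrameBound G.toNilLaw C2 := hC2
  obtain ⟨j0, hj0⟩ : ∃ j0, D.Z j0 ≠ 0 := by
    by_contra h
    push Not at h
    exact D.hZ (funext h)
  obtain ⟨K3, hK30, hK3⟩ := D.nrm_le_of_Nr 3 (by norm_num)
  obtain ⟨K4, hK40, hK4⟩ := D.nrm_le_of_Nr 4 (by norm_num)
  obtain ⟨Cg, d, hpoly⟩ := G.vg_poly
  -- the doubling constant at scale 1
  have hv1 : 0 < G.vg (1 / 2) := G.vg_pos _ (by norm_num)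
  have hv3 : 0 < G.vg (K3 * 1) := G.vg_pos _ (by linarith)
  set N : ℝ := G.vg (K3 * 1) / G.vg (1 / 2) with hNdef
  have hN : 0 < N := by positivity
  have hdbl : G.vg (K3 * 1) ≤ N * G.vg (1 / 2) := by
    rw [hNdef, div_mul_cancel₀ _ hv1.ne']
  -- the dilation constant
  obtain ⟨C1, hC1, dg, hgr⟩ := nrm_growth G.toNilLaw
  obtain ⟨Kd, hKd, hdil⟩ := G.nrm_dil (C1 * (1 + K4) ^ dg)
  have hnear : ∀ (k : ℕ) (s : ℝ), 0 < s → ∀ g : Fin k → Fin (m + 1) → ℝ,
      G.near (K4 * 1) g → G.near (Kd * s) (fun j => G.dil s (g j)) := by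
    intro k s hs g hg i j
    rw [G.dil_ldiv hs]
    apply hdil s hs
    refine (hgr _).trans ?_
    have h1 := hg i j
    have h2 := nrm_nonneg G.toNilLaw (G.ldiv (g i) (g j))
    rw [mul_one] at h1
    gcongr
  obtain ⟨A, hA, hcoch⟩ := exists_cochains hB hGr Kd hKd.le
  set c0 : ℝ := (m + 1).factorial * (volume (corner (m + 1))).toReal with hc0
  have hc0pos : 0 < c0 := by
    have h1 : 0 < (volume (corner (m + 1))).toReal :=
      ENNReal.toReal_pos (volume_corner_pos _).ne' (volume_corner_lt_top _).ne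
    positivity
  -- choose the dilation factor
  have htend : Filter.Tendsto (fun s : ℝ => A * s ^ (E - G.homDim)) Filter.atTop (𝓝 0) := by
    have h1 : Filter.Tendsto (fun s : ℝ => s ^ (-(G.homDim - E))) Filter.atTop (𝓝 0) :=
      tendsto_rpow_neg_atTop (by linarith)
    have h2 := h1.const_mul A
    rw [MulZeroClass.mul_zero] at h2
    refine h2.congr fun s => ?_
    rw [neg_sub]
  set C0 : ℝ := N ^ (m + 2) * C3 m C2 N (D.Z j0) with hC0
  have htend2 : Filter.Tendsto (fun s : ℝ => C0 * (A * s ^ (E - G.homDim))) Filter.atTop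
      (𝓝 0) := by
    have := htend.const_mul C0
    rwa [MulZeroClass.mul_zero] at this
  obtain ⟨s, hs1, hs2⟩ := ((Filter.eventually_ge_atTop (1 : ℝ)).and
    (htend2.eventually (gt_mem_nhds (half_pos hc0pos)))).exists
  have hs0 : 0 < s := by linarith
  obtain ⟨C, hC, F, h, hF, hh, hFh⟩ := hcoch s hs1
  -- rescaled cochains
  set F' : (Fin (m + 2) → Fin (m + 1) → ℝ) → ℝ :=
    fun g => (s ^ G.homDim)⁻¹ * F (fun j => G.dil s (g j)) with hF'
  set h' : (Fin (m + 1) → Fin (m + 1) → ℝ) → ℝ :=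
    fun g => (s ^ G.homDim)⁻¹ * h (fun j => G.dil s (g j)) with hh'
  have hsQ : 0 < s ^ G.homDim := by positivity
  have e1 : ∀ g, G.near (K4 * 1) g → |F' g| ≤ A * s ^ (E - G.homDim) * 1 ^ (m + 1) := by
    intro g hg
    have h1 := hF _ (hnear _ s hs0 g hg)
    rw [hF', abs_mul, abs_of_pos (inv_pos.2 hsQ), one_pow, mul_one]
    calc (s ^ G.homDim)⁻¹ * |F (fun j => G.dil s (g j))| ≤
        (s ^ G.homDim)⁻¹ * (A * s ^ (∏ i ∈ Finset.Ico 1 (m + 1), e i)) := by gcongr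
      _ = A * s ^ (E - G.homDim) := by
        rw [Real.rpow_sub hs0, Real.rpow_natCast, ← hE]
        field_simp
  have e2 : ∀ g, G.near (K4 * 1) g → |h' g| ≤ (s ^ G.homDim)⁻¹ * C := by
    intro g hg
    have h1 := hh _ (hnear _ s hs0 g hg)
    rw [hh', abs_mul, abs_of_pos (inv_pos.2 hsQ)]
    gcongr
  have e3 : ∀ g, G.near (K4 * 1) g → F' g - sgnVol (G.barSimplex g) =
      ∑ i : Fin (m + 2), (-1 : ℝ) ^ (i : ℕ) * h' (fun j => g (i.succAbove j)) := by
    intro g hg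
    have h1 := hFh _ (hnear _ s hs0 g hg)
    rw [G.sgnVol_bar_dil hs0] at h1
    have h2 : F' g - sgnVol (G.barSimplex g) = (s ^ G.homDim)⁻¹ *
        (F (fun j => G.dil s (g j)) - s ^ G.homDim * sgnVol (G.barSimplex g)) := by
      rw [hF', mul_sub, ← _root_.mul_assoc, inv_mul_cancel₀ hsQ.ne', one_mul]
    rw [h2, h1, Finset.mul_sum]
    refine Finset.sum_congr rfl fun i _ => ?_
    rw [hh']
    ring
  have hsmall : N ^ (m + 2) * (A * s ^ (E - G.homDim)) * C3 m C2 N (D.Z j0) / 1 ≤ c0 / 2 := by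
    rw [div_one]
    calc N ^ (m + 2) * (A * s ^ (E - G.homDim)) * C3 m C2 N (D.Z j0)
        = C0 * (A * s ^ (E - G.homDim)) := by rw [hC0]; ring
      _ ≤ c0 / 2 := hs2.le
  obtain ⟨Cc, hCc, hmain⟩ := main_ineq D hQ' one_pos hN.le (hK4 1 le_rfl) hC2' F' h'
    (by positivity) (by positivity) e1 e2 e3 j0 hj0 hc0 hsmall
  obtain ⟨R, hR, hslow⟩ := exists_slow G.vg G.vg_pos Cg d hpoly (c0 / (4 * Cc)) (by positivity) 1
  obtain ⟨ι, hι, ⟨P⟩⟩ := exists_Pou D le_rfl hN (hK3 1 le_rfl) hdbl R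
  have h1 := hmain R ι hι P
  have h2 : 0 < G.vg R := G.vg_pos R (by linarith)
  have h3 : Cc * G.vg (R + 2) ≤ Cc * ((1 + c0 / (4 * Cc)) * G.vg R) := by gcongr
  have h4 : Cc * ((1 + c0 / (4 * Cc)) * G.vg R) = (Cc + c0 / 4) * G.vg R := by
    field_simp
  rw [h4] at h3
  have h5 := h1.trans h3
  have h6 : Cc + c0 / 2 ≤ Cc + c0 / 4 := le_of_mul_le_mul_right h5 h2
  linarith

end Pool.Agent.E8helper29.FILL
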